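import Mathlib

/-!
# An essential supremum modulo nowhere dense sets of sign patterns
-/

set_option autoImplicit false

open Set Topology

namespace Pool.Agent.Q178.BC

universe u

section sets

variable {Γ : Type u}

theorem nd_union {Y : Type u} [TopologicalSpace Y] {s t : Set Y} (hs : IsNowhereDense s)
    (ht : IsNowhereDense t) : IsNowhereDense (s ∪ t) := by
  unfold IsNowhereDense at *
  rw [closure_union, interior_union_isClosed_of_interior_empty isClosed_closure ht, hs]

theorem not_nd_of_open {Y : Type u} [TopologicalSpace Y] {s : Set Y} (hs : IsOpen s)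
    (hne : s.Nonempty) : ¬ IsNowhereDense s := by
  intro h
  obtain ⟨x, hx⟩ := hne
  have : x ∈ interior (closure s) := interior_maximal subset_closure hs hx
  rw [h] at this
  exact this

theorem isOpen_bit (γ : Γ) (b : Bool) : IsOpen {s : Γ → Bool | s γ = b} := by
  have hc : Continuous fun s : Γ → Bool => s γ := continuous_apply γ
  exact (isOpen_discrete ({b} : Set Bool)).preimage hc

/-- A set of sign patterns which is not nowhere dense meets almost all half spaces in such a set. -/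
theorem not_nd_inter {B : Set (Γ → Bool)} (hB : ¬ IsNowhereDense B) :
    ∃ D : Finset Γ, ∀ γ ∉ D, ∀ b : Bool, ¬ IsNowhereDense (B ∩ {s | s γ = b}) := by
  classical
  have h1 : (interior (closure B)).Nonempty := by
    rw [Set.nonempty_iff_ne_empty]; exact hB
  obtain ⟨s0, hs0⟩ := h1
  obtain ⟨I, v, hv, hI⟩ := isOpen_pi_iff.1 (isOpen_interior (s := closure B)) s0 hs0
  refine ⟨I, fun γ hγ b h => ?_⟩
  have hopen : IsOpen {s : Γ → Bool | s γ = b} := isOpen_bit γ b
  have h2 : {s : Γ → Bool | s γ = b} ∩ interior (closure B) ⊆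
      interior (closure (B ∩ {s | s γ = b})) := by
    refine interior_maximal ?_ (hopen.inter isOpen_interior)
    rw [inter_comm B]
    exact (inter_subset_inter_right _ interior_subset).trans hopen.inter_closure
  have h3 : Function.update s0 γ b ∈ {s : Γ → Bool | s γ = b} ∩ interior (closure B) := by
    refine ⟨Function.update_self _ _ _, hI ?_⟩
    intro i hi
    have : i ≠ γ := by rintro rfl; exact hγ hi
    rw [Function.update_of_ne this]
    exact (hv i hi).2
  have h4 := h2 h3
  rw [h] at h4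
  exact h4

/-- Cylinders are not nowhere dense. -/
theorem not_nd_cyl (F : Finset Γ) (t : Γ → Bool) {B : Set (Γ → Bool)}
    (hB : ∀ s : Γ → Bool, (∀ γ ∈ F, s γ = t γ) → s ∈ B) : ¬ IsNowhereDense B := by
  intro h
  have hopen : IsOpen {s : Γ → Bool | ∀ γ ∈ F, s γ = t γ} := by
    have : {s : Γ → Bool | ∀ γ ∈ F, s γ = t γ} = ⋂ γ ∈ F, {s : Γ → Bool | s γ = t γ} := by
      ext s; simp
    rw [this]
    exact isOpen_biInter_finset fun γ _ => isOpen_bit γ (t γ)
  exact not_nd_of_open hopen ⟨t, fun _ _ => rfl⟩ (h.mono hB)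

end sets

section seminorm

variable {Γ : Type u} {X : Type u} [NormedAddCommGroup X] [NormedSpace ℝ X]

/-- The sign. -/
noncomputable def sg (b : Bool) : ℝ := if b then 1 else -1

theorem abs_sg (b : Bool) : |sg b| = 1 := by cases b <;> simp [sg]

variable (f : (Γ → Bool) → StrongDual ℝ X)

/-- The essential supremum of `|f s x|` modulo nowhere dense sets. -/
noncomputable def pn (x : X) : ℝ := sInf {r : ℝ | 0 ≤ r ∧ IsNowhereDense {s | r < |f s x|}}

variable {f} {C : ℝ}

theorem pn_bdd (x : X) : BddBelow {r : ℝ | 0 ≤ r ∧ IsNowhereDense {s | r < |f s x|}} :=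
  ⟨0, fun _ hr => hr.1⟩

theorem pn_le_of {x : X} {r : ℝ} (hr : 0 ≤ r) (h : IsNowhereDense {s | r < |f s x|}) :
    pn f x ≤ r := csInf_le (pn_bdd x) ⟨hr, h⟩

variable (hC0 : 0 ≤ C) (hC : ∀ s, ‖f s‖ ≤ C)

include hC0 hC

theorem pn_mem (x : X) : C * ‖x‖ ∈ {r : ℝ | 0 ≤ r ∧ IsNowhereDense {s | r < |f s x|}} := by
  refine ⟨by positivity, ?_⟩
  have : {s | C * ‖x‖ < |f s x|} = ∅ := by
    ext s
    simp only [mem_ofPred_eq, mem_empty_iff_false, iff_false, not_lt]
    have h1 := (f s).le_opNorm x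
    rw [Real.norm_eq_abs] at h1
    exact h1.trans (mul_le_mul_of_nonneg_right (hC s) (norm_nonneg x))
  rw [this]
  exact isNowhereDense_empty

theorem pn_le (x : X) : pn f x ≤ C * ‖x‖ := csInf_le (pn_bdd x) (pn_mem hC0 hC x)

theorem pn_nonneg (x : X) : 0 ≤ pn f x := le_csInf ⟨_, pn_mem hC0 hC x⟩ fun _ hr => hr.1

theorem nd_of_gt {x : X} {r : ℝ} (h : pn f x < r) : IsNowhereDense {s | r < |f s x|} := by
  obtain ⟨r', hr', hr⟩ := exists_lt_of_csInf_lt ⟨_, pn_mem hC0 hC x⟩ h
  exact hr'.2.mono fun s hs => hr.trans hs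

theorem not_nd_of_lt {x : X} {r : ℝ} (h : r < pn f x) : ¬ IsNowhereDense {s | r < |f s x|} := by
  rcases lt_or_ge r 0 with hr | hr
  · have : {s | r < |f s x|} = univ := by
      ext s
      simp only [mem_ofPred_eq, mem_univ, iff_true]
      exact hr.trans_le (abs_nonneg _)
    rw [this]
    exact not_nd_of_open isOpen_univ ⟨fun _ => true, trivial⟩
  · intro hnd
    exact absurd (pn_le_of hr hnd) (not_le.2 h)

theorem le_pn_of {x : X} {r : ℝ} (h : ¬ IsNowhereDense {s | r < |f s x|}) : r ≤ pn f x := by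
  by_contra hcon
  exact h (nd_of_gt hC0 hC (not_le.1 hcon))

theorem pn_add (x y : X) : pn f (x + y) ≤ pn f x + pn f y := by
  refine le_of_forall_pos_le_add fun ε hε => ?_
  have hx := nd_of_gt hC0 hC (show pn f x < pn f x + ε / 2 by linarith)
  have hy := nd_of_gt hC0 hC (show pn f y < pn f y + ε / 2 by linarith)
  have hx0 := pn_nonneg hC0 hC x
  have hy0 := pn_nonneg hC0 hC y
  refine pn_le_of (by linarith) ((nd_union hx hy).mono fun s hs => ?_)
  by_contra hcon
  simp only [mem_union, mem_ofPred_eq, not_or, not_lt] at hcon hs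
  rw [map_add] at hs
  have := abs_add_le (f s x) (f s y)
  linarith [hcon.1, hcon.2]

theorem pn_smul (c : ℝ) (x : X) : pn f (c • x) ≤ ‖c‖ * pn f x := by
  have key : ∀ r, pn f x < r → pn f (c • x) ≤ ‖c‖ * r := by
    intro r hr
    have hr0 : 0 ≤ r := (pn_nonneg hC0 hC x).trans hr.le
    refine pn_le_of (by positivity) ((nd_of_gt hC0 hC hr).mono fun s hs => ?_)
    simp only [mem_ofPred_eq] at hs ⊢
    rw [map_smul, smul_eq_mul, abs_mul, Real.norm_eq_abs] at hs
    by_contra hcon
    exact absurd (mul_le_mul_of_nonneg_left (not_lt.1 hcon) (abs_nonneg c)) (not_le.2 hs)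
  refine le_of_forall_pos_le_add fun ε hε => ?_
  have h := key (pn f x + ε / (‖c‖ + 1)) (by
    have : 0 < ε / (‖c‖ + 1) := by positivity
    linarith)
  refine h.trans ?_
  rw [mul_add]
  have : ‖c‖ * (ε / (‖c‖ + 1)) ≤ ε := by
    rw [mul_div_assoc', div_le_iff₀ (by positivity)]
    nlinarith [norm_nonneg c]
  linarith

/-- Almost all the vectors `z γ` are exactly additive with a given vector. -/
theorem pn_add_z {z : Γ → X} (hz : ∀ s γ, f s (z γ) = sg (s γ)) (a : X) :
    ∃ D : Set Γ, D.Countable ∧ ∀ γ ∉ D, pn f a + 1 ≤ pn f (z γ + a) := by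
  have key : ∀ r, r < pn f a → ∃ D : Finset Γ, ∀ γ ∉ D, r + 1 ≤ pn f (z γ + a) := by
    intro r hr
    have h1 := not_nd_of_lt hC0 hC hr
    have h2 : {s | r < |f s a|} = {s | r < f s a} ∪ {s | r < - f s a} := by
      ext s
      simp only [mem_ofPred_eq, mem_union]
      exact lt_abs
    rw [h2] at h1
    by_cases hp : IsNowhereDense {s | r < f s a}
    · have hm : ¬ IsNowhereDense {s | r < - f s a} := fun h => h1 (nd_union hp h)
      obtain ⟨D, hD⟩ := not_nd_inter hm
      refine ⟨D, fun γ hγ => le_pn_of hC0 hC fun h => hD γ hγ false (h.mono ?_)⟩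
      rintro s ⟨hs1, hs2⟩
      simp only [mem_ofPred_eq] at hs1 hs2 ⊢
      rw [map_add, hz, hs2]
      refine lt_of_lt_of_le ?_ (neg_le_abs _)
      simp only [sg]
      norm_num
      linarith
    · obtain ⟨D, hD⟩ := not_nd_inter hp
      refine ⟨D, fun γ hγ => le_pn_of hC0 hC fun h => hD γ hγ true (h.mono ?_)⟩
      rintro s ⟨hs1, hs2⟩
      simp only [mem_ofPred_eq] at hs1 hs2 ⊢
      rw [map_add, hz, hs2]
      refine lt_of_lt_of_le ?_ (le_abs_self _)
      simp only [sg, if_true]
      linarith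
  choose D hD using fun n : ℕ => key (pn f a - 1 / ((n : ℝ) + 1)) (by
    have : 0 < 1 / ((n : ℝ) + 1) := by positivity
    linarith)
  refine ⟨⋃ n, (D n : Set Γ), countable_iUnion fun n => (D n).countable_toSet, fun γ hγ => ?_⟩
  have h1 : ∀ n : ℕ, pn f a - 1 / ((n : ℝ) + 1) + 1 ≤ pn f (z γ + a) := fun n =>
    hD n γ fun h => hγ (mem_iUnion.2 ⟨n, h⟩)
  have hlim : Filter.Tendsto (fun n : ℕ => pn f a - 1 / ((n : ℝ) + 1) + 1) Filter.atTop
      (𝓝 (pn f a - 0 + 1)) :=
    (tendsto_const_nhds.sub tendsto_one_div_add_atTop_nhds_zero_nat).add_const 1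
  rw [sub_zero] at hlim
  exact le_of_tendsto' hlim h1

end seminorm

end Pool.Agent.Q178.BC
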