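import Pool.Agent.Q178.BC.A

/-!
# The renorming
-/

set_option autoImplicit false

open Set Topology

namespace Pool.Agent.Q178.BC

universe u

section functionals

variable {Γ : Type u}

/-- The space `ℓ₁(Γ)`. -/
abbrev L1 (Γ : Type u) := lp (fun _ : Γ => ℝ) 1

theorem summable_abs (z : L1 Γ) : Summable fun γ => |z γ| := by
  have h := (lp.memℓp z).summable (by norm_num : 0 < (1 : ENNReal).toReal)
  simpa using h

theorem norm_eq (z : L1 Γ) : ‖z‖ = ∑' γ, |z γ| := by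
  have h := lp.norm_rpow_eq_tsum (by norm_num : 0 < (1 : ENNReal).toReal) z
  simpa using h

theorem summable_sg (s : Γ → Bool) (z : L1 Γ) : Summable fun γ => z γ * sg (s γ) :=
  Summable.of_norm ((summable_abs z).congr fun γ => by
    rw [Real.norm_eq_abs, abs_mul, abs_sg, mul_one])

/-- The sign functional. -/
noncomputable def phi (s : Γ → Bool) : L1 Γ →ₗ[ℝ] ℝ where
  toFun z := ∑' γ, z γ * sg (s γ)
  map_add' x y := by
    rw [← (summable_sg s x).tsum_add (summable_sg s y)]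
    refine tsum_congr fun γ => ?_
    rw [lp.coeFn_add, Pi.add_apply, add_mul]
  map_smul' c x := by
    rw [RingHom.id_apply, smul_eq_mul, ← tsum_mul_left]
    refine tsum_congr fun γ => ?_
    rw [lp.coeFn_smul, Pi.smul_apply, smul_eq_mul, mul_assoc]

theorem phi_apply (s : Γ → Bool) (z : L1 Γ) : phi s z = ∑' γ, z γ * sg (s γ) := rfl

theorem abs_phi_le (s : Γ → Bool) (z : L1 Γ) : |phi s z| ≤ ‖z‖ := by
  rw [phi_apply, norm_eq, ← Real.norm_eq_abs]
  have h1 : Summable fun γ => ‖z γ * sg (s γ)‖ := (summable_abs z).congr fun γ => by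
    rw [Real.norm_eq_abs, abs_mul, abs_sg, mul_one]
  refine (norm_tsum_le_tsum_norm h1).trans (le_of_eq ?_)
  refine tsum_congr fun γ => ?_
  rw [Real.norm_eq_abs, abs_mul, abs_sg, mul_one]

theorem phi_single [DecidableEq Γ] (s : Γ → Bool) (γ : Γ) :
    phi s (lp.single 1 γ (1 : ℝ)) = sg (s γ) := by
  rw [phi_apply, tsum_eq_single γ]
  · rw [lp.single_apply, Pi.single_eq_same, one_mul]
  · intro β hβ
    rw [lp.single_apply, Pi.single_eq_of_ne hβ, zero_mul]

/-- The sign functionals are large on a cylinder. -/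
theorem phi_cyl (z : L1 Γ) {r : ℝ} (hr : r < ‖z‖) : ∃ (F : Finset Γ) (t : Γ → Bool),
    ∀ s : Γ → Bool, (∀ γ ∈ F, s γ = t γ) → r < phi s z := by
  classical
  have hs := (summable_abs z).hasSum
  rw [← norm_eq] at hs
  have h1 : ∀ᶠ F : Finset Γ in Filter.atTop, (r + ‖z‖) / 2 < ∑ γ ∈ F, |z γ| :=
    hs.eventually (lt_mem_nhds (by linarith))
  obtain ⟨F, hF⟩ := h1.exists
  refine ⟨F, fun γ => decide (0 ≤ z γ), fun s hs => ?_⟩
  have h2 := (summable_sg s z).sum_add_tsum_compl (s := F)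
  rw [phi_apply, ← h2]
  have h3 : ∑ γ ∈ F, z γ * sg (s γ) = ∑ γ ∈ F, |z γ| := by
    refine Finset.sum_congr rfl fun γ hγ => ?_
    have h' : s γ = decide (0 ≤ z γ) := hs γ hγ
    by_cases h : 0 ≤ z γ
    · have h'' : s γ = true := by rw [h']; exact decide_eq_true h
      rw [h'', abs_of_nonneg h]; simp [sg]
    · have h'' : s γ = false := by rw [h']; exact decide_eq_false h
      rw [h'', abs_of_neg (not_le.1 h)]; simp [sg]
  have h4 := (summable_abs z).sum_add_tsum_compl (s := F)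
  rw [← norm_eq] at h4
  have h5 : |∑' γ : ↑(↑F : Set Γ)ᶜ, z γ * sg (s γ)| ≤ ∑' γ : ↑(↑F : Set Γ)ᶜ, |z γ| := by
    have h6 : Summable fun γ : ↑(↑F : Set Γ)ᶜ => ‖z γ * sg (s γ)‖ :=
      ((summable_abs z).subtype _).congr fun γ => by
        rw [Real.norm_eq_abs, abs_mul, abs_sg, mul_one]; rfl
    rw [← Real.norm_eq_abs]
    refine (norm_tsum_le_tsum_norm h6).trans (le_of_eq ?_)
    refine tsum_congr fun γ => ?_
    rw [Real.norm_eq_abs, abs_mul, abs_sg, mul_one]
  rw [h3]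
  have h7 := neg_le_of_abs_le h5
  linarith

variable {X : Type u} [NormedAddCommGroup X] [NormedSpace ℝ X]

/-- Extensions of the sign functionals. -/
theorem exists_functional (T : L1 Γ →L[ℝ] X) {c : ℝ} (hc : 0 < c) (hT : ∀ z, c * ‖z‖ ≤ ‖T z‖)
    (s : Γ → Bool) : ∃ f : StrongDual ℝ X, ‖f‖ ≤ 1 / c ∧ ∀ z, f (T z) = phi s z := by
  have hinj : Function.Injective T.toLinearMap := by
    intro x y hxy
    have h := hT (x - y)
    have h1 : T (x - y) = 0 := by
      rw [map_sub, sub_eq_zero]; exact hxy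
    rw [h1, norm_zero] at h
    have h2 : ‖x - y‖ ≤ 0 := by
      by_contra hcon
      push Not at hcon
      have : 0 < c * ‖x - y‖ := by positivity
      linarith
    exact sub_eq_zero.1 (norm_le_zero_iff.1 h2)
  let e := LinearEquiv.ofInjective T.toLinearMap hinj
  have he : ∀ w : LinearMap.range T.toLinearMap, T (e.symm w) = w := fun w => by
    have := e.apply_symm_apply w
    exact congrArg Subtype.val this
  let g : StrongDual ℝ (LinearMap.range T.toLinearMap) :=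
    LinearMap.mkContinuous ((phi s).comp e.symm.toLinearMap) (1 / c) fun w => by
      have h1 := abs_phi_le s (e.symm w)
      have h2 := hT (e.symm w)
      rw [he] at h2
      rw [Real.norm_eq_abs]
      refine h1.trans ?_
      rw [one_div, ← div_eq_inv_mul, le_div_iff₀ hc, mul_comm]
      exact h2
  obtain ⟨f, hf, hfn⟩ := exists_extension_norm_eq (LinearMap.range T.toLinearMap) g
  refine ⟨f, ?_, fun z => ?_⟩
  · rw [hfn]
    exact LinearMap.mkContinuous_norm_le _ (by positivity) _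
  · have h1 := hf ⟨T z, ⟨z, rfl⟩⟩
    have h2 : e.symm ⟨T z, ⟨z, rfl⟩⟩ = z := by
      rw [LinearEquiv.symm_apply_eq]
      rfl
    have h3 : g ⟨T z, ⟨z, rfl⟩⟩ = phi s (e.symm ⟨T z, ⟨z, rfl⟩⟩) := rfl
    rw [h3, h2] at h1
    exact h1

/-- The renorming. -/
theorem exists_norm (T : L1 Γ →L[ℝ] X) {c : ℝ} (hc : 0 < c) (hT : ∀ z, c * ‖z‖ ≤ ‖T z‖) :
    ∃ p : Seminorm ℝ X, (∃ c' > 0, ∃ C', ∀ x, c' * ‖x‖ ≤ p x ∧ p x ≤ C' * ‖x‖) ∧
      ∃ z : Γ → X, (∀ γ, p (z γ) = 1) ∧
        ∀ a : X, ∃ D : Set Γ, D.Countable ∧ ∀ γ ∉ D, p a + 1 ≤ p (z γ - a) := by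
  classical
  choose f hf1 hf2 using exists_functional T hc hT
  have hC0 : (0 : ℝ) ≤ 1 / c := by positivity
  have h0 : pn f (0 : X) = 0 := le_antisymm (by
    have := pn_le hC0 hf1 (0 : X)
    rwa [norm_zero, mul_zero] at this) (pn_nonneg hC0 hf1 _)
  let p0 : Seminorm ℝ X := Seminorm.ofSMulLE (pn f) h0 (pn_add hC0 hf1) (pn_smul hC0 hf1)
  have hp0 : ∀ x, p0 x = pn f x := fun _ => rfl
  let Z : Submodule ℝ X := LinearMap.range T.toLinearMap
  let q : Seminorm ℝ X := (normSeminorm ℝ (X ⧸ Z)).comp Z.mkQ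
  have hq : ∀ x, q x = ‖(Submodule.Quotient.mk x : X ⧸ Z)‖ := fun _ => rfl
  have hlow : ∀ z : L1 Γ, ‖z‖ ≤ p0 (T z) := by
    intro z
    refine le_of_forall_lt fun r hr => ?_
    obtain ⟨r', hr1, hr2⟩ := exists_between hr
    obtain ⟨F, t, hFt⟩ := phi_cyl z hr2
    refine hr1.trans_le (le_pn_of hC0 hf1 (not_nd_cyl F t fun s hs => ?_))
    show r' < |f s (T z)|
    rw [hf2]
    exact (hFt s hs).trans_le (le_abs_self _)
  let z : Γ → X := fun γ => T (lp.single 1 γ (1 : ℝ))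
  have hz : ∀ s γ, f s (z γ) = sg (s γ) := fun s γ => by
    rw [hf2, phi_single]
  have hqz : ∀ γ, (Submodule.Quotient.mk (z γ) : X ⧸ Z) = 0 := fun γ =>
    (Submodule.Quotient.mk_eq_zero Z).2 ⟨_, rfl⟩
  refine ⟨p0 + q, ⟨1 / ((‖T‖ + 1) + (‖T‖ + 1) * (1 / c) + 1), by positivity, 1 / c + 1,
    fun x => ⟨?_, ?_⟩⟩, z, fun γ => ?_, fun a => ?_⟩
  · rw [_root_.add_apply, one_div, ← div_eq_inv_mul, div_le_iff₀ (by positivity)]
    refine le_of_forall_pos_le_add fun ε hε => ?_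
    set M : ℝ := (‖T‖ + 1) * (1 / c) + 1 with hM
    have hM0 : 0 < M := by positivity
    obtain ⟨y, hy1, hy2⟩ := Submodule.Quotient.norm_mk_lt (S := Z)
      (Submodule.Quotient.mk x : X ⧸ Z) (show 0 < ε / M by positivity)
    rw [← hq] at hy2
    obtain ⟨w, hw⟩ := (Submodule.Quotient.eq Z).1 hy1
    have hw' : T w = y - x := hw
    have hx : x = y + T (-w) := by rw [map_neg, hw']; abel
    have h1 : ‖w‖ ≤ p0 x + (1 / c) * ‖y‖ := by
      have h2 := hlow w
      rw [hw'] at h2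
      have h3 := map_sub_le_add p0 y x
      have h4 : p0 y ≤ 1 / c * ‖y‖ := pn_le hC0 hf1 y
      linarith
    have h2 : ‖T w‖ ≤ (‖T‖ + 1) * ‖w‖ := by
      refine (T.le_opNorm w).trans (mul_le_mul_of_nonneg_right ?_ (norm_nonneg _))
      linarith
    have h3 : ‖x‖ ≤ ‖y‖ + ‖T w‖ := by
      have : x = y - T w := by rw [hw']; abel
      rw [this]; exact norm_sub_le _ _
    have h4 : (‖T‖ + 1) * ‖w‖ ≤ (‖T‖ + 1) * (p0 x + (1 / c) * ‖y‖) :=
      mul_le_mul_of_nonneg_left h1 (by positivity)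
    have h5 : M * ‖y‖ ≤ M * (q x + ε / M) := mul_le_mul_of_nonneg_left hy2.le hM0.le
    have h6 : M * (q x + ε / M) = M * q x + ε := by field_simp
    have hpx : 0 ≤ p0 x := apply_nonneg p0 x
    have hqx : 0 ≤ q x := apply_nonneg q x
    have h7 : 0 ≤ M * p0 x := by positivity
    have h8 : 0 ≤ (‖T‖ + 1) * q x := by positivity
    have h9 : (p0 x + q x) * (‖T‖ + 1 + (‖T‖ + 1) * (1 / c) + 1) =
      (‖T‖ + 1) * p0 x + M * q x + M * p0 x + (‖T‖ + 1) * q x := by rw [hM]; ring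
    rw [h9]
    have h10 : ‖y‖ + (‖T‖ + 1) * (p0 x + 1 / c * ‖y‖) = (‖T‖ + 1) * p0 x + M * ‖y‖ := by
      rw [hM]; ring
    linarith
  · rw [_root_.add_apply, add_mul, one_mul]
    exact add_le_add (pn_le hC0 hf1 x) (Submodule.Quotient.norm_mk_le Z x)
  · rw [_root_.add_apply, hq, hqz, norm_zero, add_zero]
    refine le_antisymm ?_ ?_
    · refine pn_le_of zero_le_one ?_
      have : {s | (1 : ℝ) < |f s (z γ)|} = ∅ := by
        ext s
        simp only [mem_ofPred_eq, mem_empty_iff_false, iff_false, not_lt]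
        rw [hz, abs_sg]
      rw [this]
      exact isNowhereDense_empty
    · have := hlow (lp.single 1 γ (1 : ℝ))
      rwa [lp.norm_single (by norm_num), norm_one] at this
  · obtain ⟨D, hD, hDa⟩ := pn_add_z hC0 hf1 hz (-a)
    refine ⟨D, hD, fun γ hγ => ?_⟩
    have h1 := hDa γ hγ
    rw [← hp0, ← hp0, map_neg_eq_map, ← sub_eq_add_neg] at h1
    have h2 : q (z γ - a) = q a := by
      rw [hq, hq, Submodule.Quotient.mk_sub, hqz, zero_sub, norm_neg]
    rw [_root_.add_apply, _root_.add_apply, h2]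
    linarith

end functionals

end Pool.Agent.Q178.BC
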